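import Pool.Agent.Q234.PL.Stm2

/-! # Project PL (helper234), job PKA: kernels of translated blocks -/

set_option autoImplicit false

open scoped BigOperators Matrix
open Finset Pool.Agent.TH235.PP Pool.Agent.Q234.PL

namespace Pool.Agent.Q241.PL.PKA

lemma contract_shift {D L : ℕ} [NeZero L] (A : Site L → Fin 2 → Fin D → Fin D → Fin D → Fin D → ℂ)
    (c : ZMod L) (s : Site L → Fin 2) :
    contract (fun x => A (x.1, x.2 + c)) s = contract A (fun x => s (x.1, x.2 - c)) := by
  unfold contract
  let e : Site L ≃ Site L := (Equiv.refl _).prodCongr (Equiv.addRight c)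
  let E : (Site L → Fin D) ≃ (Site L → Fin D) := e.arrowCongr (Equiv.refl _)
  have hE : ∀ (h : Site L → Fin D) (x : Site L), E h x = h (x.1, x.2 - c) := fun h x => by
    rw [sub_eq_add_neg]
    rfl
  symm
  rw [← E.sum_comp]
  refine Finset.sum_congr rfl fun h _ => ?_
  rw [← E.sum_comp]
  refine Finset.sum_congr rfl fun v _ => ?_
  rw [← e.prod_comp]
  refine Finset.prod_congr rfl fun x _ => ?_
  have he : e x = (x.1, x.2 + c) := rfl
  simp only [hE, he]
  have h1 : x.2 + c - c = x.2 := by ring
  have h2 : x.2 + c - 1 - c = x.2 - 1 := by ring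
  rw [h1, h2]

theorem main (h1 : PepsKernel) : PepsKernelAt := by
  intro L m D y _ φ hm hy hD hφ
  obtain ⟨A, rfl⟩ := hφ
  set c : ZMod L := (y : ZMod L) with hc
  obtain ⟨v, hv, hk⟩ := h1 L m D (contract fun x => A (x.1, x.2 + c)) hm hD ⟨_, rfl⟩
  refine ⟨v, hv, fun t => ?_⟩
  have h2 := hk fun x => t (x.1, x.2 + c)
  rw [← h2]
  refine Finset.sum_congr rfl fun p _ => ?_
  rw [contract_shift]
  congr 2
  funext x
  unfold tpasteAt tpaste
  have hcond : (x.1.val < m ∧ (x.2 - c).val < m) ↔ (x.1.val < m ∧ y ≤ x.2.val ∧ x.2.val < y + m) := by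
    refine and_congr_right fun hx1 => ?_
    have hm0 : 0 < m := by omega
    have hyL : y < L := by omega
    have hcv : c.val = y := ZMod.val_natCast_of_lt hyL
    constructor
    · intro ha
      have h3 : x.2.val = ((x.2 - c).val + c.val) % L := by
        rw [← ZMod.val_add]
        congr 1
        ring
      rw [hcv, Nat.mod_eq_of_lt (by omega)] at h3
      omega
    · rintro ⟨h3, h4⟩
      rw [ZMod.val_sub (by rw [hcv]; exact h3), hcv]
      omega
  by_cases hx : x.1.val < m ∧ y ≤ x.2.val ∧ x.2.val < y + m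
  · rw [dif_pos hx, dif_pos (hcond.2 hx)]
    have hyL : y < L := by omega
    have hcv : c.val = y := ZMod.val_natCast_of_lt hyL
    have h3 : (x.2 - c).val = x.2.val - y := by
      rw [ZMod.val_sub (by rw [hcv]; exact hx.2.1), hcv]
    congr 2
    exact Fin.ext h3.symm
  · rw [dif_neg hx, dif_neg (fun hh => hx (hcond.1 hh))]
    have h4 : x.2 - c + c = x.2 := by ring
    show t x = t (x.1, x.2 - c + c)
    rw [h4]

end Pool.Agent.Q241.PL.PKA
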