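import Pool.Agent.Q234.PL.Stm2

/-! # Project PL (helper234), job TD: duality for the trace norm -/

set_option autoImplicit false

open scoped BigOperators Matrix InnerProductSpace
open Finset Pool.Agent.TH235.PP Pool.Agent.Q234.PL

namespace Pool.Agent.Q241.PL.TD

lemma ip_eq_dot {S : Type} [Fintype S] (x y : S → ℂ) : ip x y = star x ⬝ᵥ y := rfl

lemma ip_self {S : Type} [Fintype S] [DecidableEq S] (x : S → ℂ) : ip x x = (normSq x : ℂ) := by
  rw [ip_eq, inner_self_eq_norm_sq_to_K, ← nr_sq]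
  unfold nr
  push_cast
  rfl

theorem main : TraceDual := by
  intro n _ _ B X hB
  have hX := Matrix.isHermitian_conjTranspose_mul_self X
  have key : (B * X).trace = ∑ i, ⟪hX.eigenvectorBasis i, Matrix.toEuclideanLin (B * X) (hX.eigenvectorBasis i)⟫_ℂ := by
    rw [← LinearMap.trace_eq_sum_inner, Matrix.toEuclideanLin_eq_toLin, Matrix.trace_toLin_eq]
  rw [key]
  refine (norm_sum_le _ _).trans ?_
  unfold Pool.Agent.H4R2.traceNorm
  refine Finset.sum_le_sum fun i _ => ?_
  set v : n → ℂ := (hX.eigenvectorBasis i).ofLp with hv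
  have hnv : normSq v = 1 := by
    rw [← nr_sq]
    have : nr v = 1 := hX.eigenvectorBasis.norm_eq_one i
    rw [this, one_pow]
  have h1 : ‖⟪hX.eigenvectorBasis i, Matrix.toEuclideanLin (B * X) (hX.eigenvectorBasis i)⟫_ℂ‖ ≤
      1 * nr ((B * X) *ᵥ v) := by
    have := norm_inner_le_norm (𝕜 := ℂ) (hX.eigenvectorBasis i)
      (Matrix.toEuclideanLin (B * X) (hX.eigenvectorBasis i))
    rw [hX.eigenvectorBasis.norm_eq_one i] at this
    exact this
  rw [one_mul] at h1
  refine h1.trans (Real.le_sqrt_of_sq_le ?_)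
  rw [nr_sq, ← Matrix.mulVec_mulVec]
  refine (hB _).trans (le_of_eq ?_)
  have h2 : ((normSq (X *ᵥ v) : ℝ) : ℂ) = ((hX.eigenvalues i : ℝ) : ℂ) := by
    rw [← ip_self, ip_eq_dot, Matrix.star_mulVec, ← Matrix.dotProduct_mulVec, Matrix.mulVec_mulVec,
      hv, hX.mulVec_eigenvectorBasis i]
    rw [← hv]
    have h3 : hX.eigenvalues i • v = ((hX.eigenvalues i : ℝ) : ℂ) • v := rfl
    rw [h3, dotProduct_smul, ← ip_eq_dot, ip_self, hnv]
    simp
  exact_mod_cast h2

end Pool.Agent.Q241.PL.TD
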